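import Pool.Agent.X70.Cookie4

/-!
# MP_c8e9c8_co: Grundy values of arithmetic-progression positions in the cookie game

For all `a ≥ 1` and `n ≥ 2` with `n ≥ 2a - 2` the Grundy value of the position with heaps
`a, a+1, ..., a+n-1` is `g (a+n)`, where `g` has period six with values `3,0,1,2,0,1` on the
residues `0,1,2,3,4,5`.
-/

namespace Pool.Agent.Results.MP_c8e9c8_co.GrundyAP

/-- One move on a multiset of heaps: the selected heap `a` is removed entirely and every other
heap of positive size is lowered by `1`; heaps of size `0` stay at `0`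
(truncated subtraction). -/
def move (s : Multiset ℕ) (a : ℕ) : Multiset ℕ := (s.erase a).map (fun x => x - 1)

theorem card_move_lt {s : Multiset ℕ} {a : ℕ} (h : a ∈ s) :
    Multiset.card (move s a) < Multiset.card s := by
  unfold move
  rw [Multiset.card_map]
  exact Multiset.card_erase_lt_of_mem h

/-- The Grundy value: the least natural number that is not the Grundy value of any position
reachable in one move; a move selects a heap of positive size. -/
noncomputable def grundy (s : Multiset ℕ) : ℕ :=
  sInf {m : ℕ | ∀ a : {a : ℕ // a ∈ s}, 1 ≤ a.1 → grundy (move s a.1) ≠ m}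
termination_by Multiset.card s
decreasing_by exact card_move_lt a.2

/-- The AP-position `A(a,n)`: the `n` heaps `a, a+1, ..., a+n-1`. -/
def apPosition (a n : ℕ) : Multiset ℕ := (Multiset.range n).map (fun i => a + i)

/-- The function `g` of the problem. -/
def g (m : ℕ) : ℕ :=
  if m % 6 = 1 ∨ m % 6 = 4 then 0
  else if m % 6 = 2 ∨ m % 6 = 5 then 1
  else if m % 6 = 3 then 2
  else 3

open Pool.Agent.X70 in
theorem grundy_eq : ∀ (k : ℕ) (s : Multiset ℕ), Multiset.card s ≤ k →
    grundy s = Cookie.grundy s := by
  intro k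
  induction k with
  | zero =>
    intro s hk
    have hempty : ∀ d ∈ s, False := by
      intro d hd
      have : 0 < Multiset.card s := Multiset.card_pos_iff_exists_mem.mpr ⟨d, hd⟩
      omega
    rw [grundy, Cookie.grundy]
    congr 1
    ext m
    constructor
    · intro _ a
      exact absurd a.2 (fun h => hempty _ h)
    · intro _ a
      exact absurd a.2 (fun h => hempty _ h)
  | succ k ih =>
    intro s hk
    rw [grundy, Cookie.grundy]
    congr 1
    ext m
    constructor
    · intro h a h1
      have hlt := card_move_lt a.2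
      have e := ih (move s a.1) (by omega)
      have := h a h1
      rw [e] at this
      exact this
    · intro h a h1
      have hlt := card_move_lt a.2
      have e := ih (move s a.1) (by omega)
      rw [e]
      exact h a h1

open Pool.Agent.X70 in
theorem c_ap {a : ℕ} (ha : 1 ≤ a) (n t : ℕ) :
    Cookie.c (apPosition a n) t = min (t + 1 - a) n := by
  induction n with
  | zero => simp [apPosition, Cookie.c]
  | succ n ih =>
    have e : apPosition a (n + 1) = (a + n) ::ₘ apPosition a n := by
      unfold apPosition
      rw [Multiset.range_succ, Multiset.map_cons]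
    have e2 : Cookie.c ((a + n) ::ₘ apPosition a n) t =
        Cookie.c (apPosition a n) t + if (1 ≤ a + n ∧ a + n ≤ t) then 1 else 0 := by
      unfold Cookie.c; rw [Multiset.countP_cons]
    rw [e, e2, ih]
    split_ifs <;> omega

open Pool.Agent.X70 in
theorem N_ap {a : ℕ} (ha : 1 ≤ a) (n : ℕ) : Cookie.N (apPosition a n) = n := by
  induction n with
  | zero => simp [apPosition, Cookie.N]
  | succ n ih =>
    have e : apPosition a (n + 1) = (a + n) ::ₘ apPosition a n := by
      unfold apPosition
      rw [Multiset.range_succ, Multiset.map_cons]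
    have e2 : Cookie.N ((a + n) ::ₘ apPosition a n) =
        Cookie.N (apPosition a n) + if (1 ≤ a + n) then 1 else 0 := by
      unfold Cookie.N; rw [Multiset.countP_cons]
    rw [e, e2, ih]
    split_ifs <;> omega

open Pool.Agent.X70 in
theorem good_ap (a n : ℕ) : Cookie.Good (apPosition a n) := by
  intro x _ _
  have hn : (apPosition a n).Nodup := by
    unfold apPosition
    exact (Multiset.nodup_range n).map (fun i j h => by simpa using h)
  exact Multiset.nodup_iff_count_le_one.mp hn x

open Pool.Agent.X70 in
theorem rch_ap {a : ℕ} (ha : 1 ≤ a) (n : ℕ) {k : ℕ} (hk : 1 ≤ k) :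
    Cookie.Rch (apPosition a n) k ↔ k + (k - 1) / 2 + 2 * a ≤ n + 1 := by
  unfold Cookie.Rch
  rw [N_ap ha]
  constructor
  · rintro ⟨t, h1, h2⟩
    rw [c_ap ha] at h2
    omega
  · intro h
    refine ⟨k + 2 * a - 2, by omega, ?_⟩
    rw [c_ap ha]
    omega

/-- **MP_c8e9c8_co, Q1.** For all integers `a ≥ 1` and `n ≥ 2` with `n ≥ 2a - 2`, the Grundy
value of the AP-position `A(a,n)` is `g (a+n)`. -/
theorem result (a n : ℕ) (ha : 1 ≤ a) (hn : 2 ≤ n) (han : 2 * a ≤ n + 2) :
    grundy (apPosition a n) = g (a + n) := by
  rw [grundy_eq _ _ le_rfl, Pool.Agent.X70.Cookie.grundy_eq_val' (good_ap a n)]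
  have h1 : 1 ≤ Pool.Agent.X70.Cookie.lv (apPosition a n) →
      Pool.Agent.X70.Cookie.lv (apPosition a n) +
        (Pool.Agent.X70.Cookie.lv (apPosition a n) - 1) / 2 + 2 * a ≤ n + 1 := by
    intro h
    exact (rch_ap ha n h).mp (Pool.Agent.X70.Cookie.rch_lv h)
  have h2 : ¬ (Pool.Agent.X70.Cookie.lv (apPosition a n) + 1 +
      (Pool.Agent.X70.Cookie.lv (apPosition a n) + 1 - 1) / 2 + 2 * a ≤ n + 1) := by
    intro h
    have h3 := (rch_ap ha n (k := Pool.Agent.X70.Cookie.lv (apPosition a n) + 1)
      (by omega)).mpr h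
    rw [← Pool.Agent.X70.Cookie.le_lv_iff (by omega)] at h3
    omega
  have h4 : Pool.Agent.X70.Cookie.lv (apPosition a n) % 2 = 1 →
      Pool.Agent.X70.Cookie.er (apPosition a n) =
        a + (Pool.Agent.X70.Cookie.lv (apPosition a n) + 1) / 2 - 1 := by
    intro hodd
    have := h1 (by omega)
    apply Pool.Agent.X70.Cookie.er_eq
    · rw [c_ap ha]; omega
    · intro t ht
      rw [c_ap ha]; omega
  unfold Pool.Agent.X70.Cookie.val
  rw [N_ap ha]
  generalize Pool.Agent.X70.Cookie.lv (apPosition a n) = l at *
  generalize Pool.Agent.X70.Cookie.er (apPosition a n) = e at *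
  unfold g
  split_ifs <;> omega

end Pool.Agent.Results.MP_c8e9c8_co.GrundyAP
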